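import Pool.Agent.Helper32.OIP.Goals

/-!
# OIP, packet L2
-/

open MeasureTheory

namespace Pool.Agent.Helper90.OIP

open Pool.Agent.Helper32.OIP
open Pool.Agent.Helper58.Orb

theorem l2 : GoalL2 := by
  classical
  intro hMA1 hMA2 hMA3 hR0 A E _ _ S D T ν _ s t R K Gh hst hGh hdep hq
  obtain ⟨h1, h2, h3⟩ := hR0 A S D T
  obtain ⟨-, -, hsh⟩ := hMA1
  have hlen := h1 s t hst
  have hpres : ∀ a : ℕ, MeasurePreserving (sh (gw T s t (a * (2 * R + 1))) : (A → E) → (A → E))
      (pm A ν) (pm A ν) := fun a => hsh A E ν _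
  have hmeas : ∀ a : ℕ, MeasurableSet {z : A → E | sh (gw T s t (a * (2 * R + 1))) z ∈ Gh} :=
    fun a => (hpres a).measurable hGh
  haveI : IsProbabilityMeasure (pm A ν) := by
    unfold pm
    infer_instance
  have hval : ∀ a : ℕ, (pm A ν).real {z : A → E | sh (gw T s t (a * (2 * R + 1))) z ∈ Gh} =
      (pm A ν).real Gh := by
    intro a
    unfold Measure.real
    have := (hpres a).measure_preimage hGh.nullMeasurableSet
    rw [← this]
    rfl
  -- the windows
  have hdisj0 : ∀ a b : ℕ, a < b →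
      Disjoint {x : A | gw T s t (a * (2 * R + 1)) * x ∈ bl T R}
        {x : A | gw T s t (b * (2 * R + 1)) * x ∈ bl T R} := by
    intro a b hab
    rw [Set.disjoint_left]
    intro x hxa hxb
    have hxa' : T.len (gw T s t (a * (2 * R + 1)) * x) ≤ R := hxa
    have hxb' : T.len (gw T s t (b * (2 * R + 1)) * x) ≤ R := hxb
    have e1 := hlen (b * (2 * R + 1)) (a * (2 * R + 1)) (Nat.mul_le_mul_right _ hab.le)
    have e2 : gw T s t (b * (2 * R + 1)) * (gw T s t (a * (2 * R + 1)))⁻¹ =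
        (gw T s t (b * (2 * R + 1)) * x) * (gw T s t (a * (2 * R + 1)) * x)⁻¹ := by
      group
    have e3 := h3 (gw T s t (b * (2 * R + 1)) * x) (gw T s t (a * (2 * R + 1)) * x)⁻¹
    rw [← e2, e1, h2] at e3
    obtain ⟨c, rfl⟩ : ∃ c, b = a + 1 + c := ⟨b - (a + 1), by omega⟩
    have e4 : (a + 1 + c) * (2 * R + 1) = a * (2 * R + 1) + (2 * R + 1) + c * (2 * R + 1) := by ring
    omega
  have hind : ∀ V : Finset ℕ, (pm A ν).real
      (⋂ a ∈ V, {z : A → E | sh (gw T s t (a * (2 * R + 1))) z ∈ Gh}) =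
      (pm A ν).real Gh ^ V.card := by
    intro V
    rw [hMA3 hMA2 A E ℕ ν (fun a => {x : A | gw T s t (a * (2 * R + 1)) * x ∈ bl T R})
      (fun a => {z : A → E | sh (gw T s t (a * (2 * R + 1))) z ∈ Gh}) V ?_ (fun a _ => hmeas a) ?_]
    · rw [Finset.prod_congr rfl (fun a _ => hval a), Finset.prod_const]
    · intro a _ b _ hab
      rcases Nat.lt_or_gt_of_ne hab with h | h
      · exact hdisj0 a b h
      · exact (hdisj0 b a h).symm
    · intro a _ z z' hz
      have := @hdep (sh (gw T s t (a * (2 * R + 1))) z) (sh (gw T s t (a * (2 * R + 1))) z') ?_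
      · exact this
      · intro h hh
        refine hz _ ?_
        show gw T s t (a * (2 * R + 1)) * ((gw T s t (a * (2 * R + 1)))⁻¹ * h) ∈ bl T R
        rw [mul_inv_cancel_left]
        exact hh
  have hsub : {z : A → E | K ≤ 4 * ((Finset.range K).filter
        (fun a => sh (gw T s t (a * (2 * R + 1))) z ∈ Gh)).card} ⊆
      ⋃ V ∈ (Finset.range K).powerset.filter (fun V => K ≤ 4 * V.card),
        ⋂ a ∈ V, {z : A → E | sh (gw T s t (a * (2 * R + 1))) z ∈ Gh} := by
    intro z hz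
    simp only [Set.mem_iUnion]
    refine ⟨(Finset.range K).filter (fun a => sh (gw T s t (a * (2 * R + 1))) z ∈ Gh), ?_, ?_⟩
    · rw [Finset.mem_filter, Finset.mem_powerset]
      exact ⟨Finset.filter_subset _ _, hz⟩
    · simp only [Set.mem_iInter]
      intro a ha
      exact (Finset.mem_filter.1 ha).2
  have hq0 : 0 ≤ (pm A ν).real Gh := measureReal_nonneg
  have hterm : ∀ V ∈ (Finset.range K).powerset.filter (fun V => K ≤ 4 * V.card),
      (pm A ν).real (⋂ a ∈ V, {z : A → E | sh (gw T s t (a * (2 * R + 1))) z ∈ Gh}) ≤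
        (1 / 4 : ℝ) ^ K := by
    intro V hV
    have hV' := (Finset.mem_filter.1 hV).2
    rw [hind V]
    calc (pm A ν).real Gh ^ V.card ≤ (1 / 256 : ℝ) ^ V.card := pow_le_pow_left₀ hq0 hq _
      _ = (1 / 4 : ℝ) ^ (4 * V.card) := by
        rw [pow_mul]
        norm_num
      _ ≤ (1 / 4 : ℝ) ^ K := pow_le_pow_of_le_one (by norm_num) (by norm_num) hV'
  calc (pm A ν).real {z : A → E | K ≤ 4 * ((Finset.range K).filter
        (fun a => sh (gw T s t (a * (2 * R + 1))) z ∈ Gh)).card}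
      ≤ (pm A ν).real (⋃ V ∈ (Finset.range K).powerset.filter (fun V => K ≤ 4 * V.card),
        ⋂ a ∈ V, {z : A → E | sh (gw T s t (a * (2 * R + 1))) z ∈ Gh}) :=
        measureReal_mono hsub (measure_ne_top _ _)
    _ ≤ ∑ V ∈ (Finset.range K).powerset.filter (fun V => K ≤ 4 * V.card),
        (pm A ν).real (⋂ a ∈ V, {z : A → E | sh (gw T s t (a * (2 * R + 1))) z ∈ Gh}) :=
        measureReal_biUnion_finset_le _ _
    _ ≤ ∑ _V ∈ (Finset.range K).powerset.filter (fun V => K ≤ 4 * V.card), (1 / 4 : ℝ) ^ K :=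
        Finset.sum_le_sum hterm
    _ ≤ ∑ _V ∈ (Finset.range K).powerset, (1 / 4 : ℝ) ^ K :=
        Finset.sum_le_sum_of_subset_of_nonneg (Finset.filter_subset _ _)
          (fun _ _ _ => by positivity)
    _ = (1 / 2 : ℝ) ^ K := by
        rw [Finset.sum_const, Finset.card_powerset, Finset.card_range, nsmul_eq_mul]
        push_cast
        rw [← mul_pow]
        norm_num

end Pool.Agent.Helper90.OIP
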